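import Pool.Agent.TFS.Count
import Pool.Agent.TFG.Ends
import Pool.Agent.TFG.Lobe
import Pool.Agent.TFB.Final
import Pool.Agent.TFX.Choose

/-! Condition (C) alone: a graph of order `n` has a 2-factor with at most about `2 √n` cycles
(helper43). -/

namespace Pool.Agent.TFS

open List Pool.Agent.TF82 Pool.Agent.TFC Pool.Agent.TFB Pool.Agent.TFN Pool.Agent.TFG

universe u

set_option linter.unusedSectionVars false
set_option linter.unusedVariables false

variable {V : Type u} [DecidableEq V]

/-- a clean end of a longest path of a component, and a cycle through it and its neighbours -/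
theorem clean_end [Fintype V] {G : SimpleGraph V} [DecidableRel G.Adj]
    (hC : ∀ I : Finset V, G.IsIndepSet (I : Set V) → ∀ v ∈ I, I.card + 1 ≤ dU G Finset.univ v)
    {F : List (List V)} (hM : IsMax G F.length F) {y : V} (hy : y ∈ unc F) :
    ∃ v ∈ unc F, (∀ s ∈ F.flatten, G.Adj s v → ∀ t ∈ att G F v, Link G F v 3 s t) ∧
      ∃ c, CycL G c ∧ (∀ x ∈ c, x ∈ unc F) ∧ v ∈ c ∧ ∀ z ∈ unc F, G.Adj v z → z ∈ c := by
  classical
  -- a longest path
  obtain ⟨m, ⟨l0, v0, w0, hl0, hn0, hc0, rfl⟩, hmax0⟩ := exists_max_nat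
    (fun m => ∃ (l : List V) (v w : V), Seg G l v w ∧ l.Nodup ∧ (∀ z ∈ l, z ∈ comp G F y) ∧
      l.length = m) (Fintype.card V)
    ⟨1, [y], y, y, ⟨by simp, rfl, rfl⟩, by simp, by
      intro z hz
      rw [List.mem_singleton] at hz
      rw [hz]
      exact mem_comp.2 ⟨hy, Relation.ReflTransGen.refl⟩, rfl⟩
    (by
      rintro m ⟨l, v, w, h1, h2, h3, rfl⟩
      exact h2.length_le_card)
  have hmax : ∀ (X : List V) (x1 x2 : V), Seg G X x1 x2 → X.Nodup →
      (∀ z ∈ X, z ∈ comp G F y) → X.length ≤ l0.length :=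
    fun X x1 x2 h1 h2 h3 => hmax0 _ ⟨X, x1, x2, h1, h2, h3, rfl⟩
  obtain ⟨l, v, hl, hp, hcl⟩ := ends_rot hC hM hy hl0 hn0 hc0 hmax
  have hln : l.Nodup := hp.nodup_iff.2 hn0
  have hlc : ∀ z ∈ l, z ∈ comp G F y := fun z hz => hc0 z (hp.mem_iff.1 hz)
  have hmax' : ∀ (X : List V) (x1 x2 : V), Seg G X x1 x2 → X.Nodup →
      (∀ z ∈ X, z ∈ comp G F y) → X.length ≤ l.length := by
    rw [hp.length_eq]
    exact hmax
  have hvc := hlc v (List.mem_of_head? hl.hd)
  have hv : v ∈ unc F := (mem_comp.1 hvc).1
  have hd : 2 ≤ dU G (unc F) v := by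
    have h1 := att_main hC hM hv {v} (by simp [SimpleGraph.IsIndepSet]) (by
      intro x hx
      rw [Finset.mem_singleton] at hx
      rw [hx]
      exact Relation.ReflTransGen.refl) (v := v) (by simp)
    rw [Finset.card_singleton] at h1
    omega
  exact ⟨v, hv, fun s hs hsv t ht =>
    link_clean hv hcl (fun x hx hxv => path3 hy hl hln hlc hmax' hd hx hxv) hs hsv ht,
    end_cycle hy hl hln hlc hmax' hd⟩

/-- a cycle through a vertex and its neighbours is long -/
theorem dU_lt_length [Fintype V] {G : SimpleGraph V} [DecidableRel G.Adj] {U : Finset V} {v : V}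
    {c : List V} (hv : v ∈ c) (hN : ∀ z ∈ U, G.Adj v z → z ∈ c) : dU G U v + 1 ≤ c.length := by
  unfold dU
  have h1 : insert v (U.filter (fun w => G.Adj v w)) ⊆ c.toFinset := by
    intro z hz
    rw [Finset.mem_insert, Finset.mem_filter] at hz
    rw [List.mem_toFinset]
    rcases hz with h | h
    · rw [h]
      exact hv
    · exact hN z h.1 h.2
  have h2 := (Finset.card_le_card h1).trans (List.toFinset_card_le c)
  rw [Finset.card_insert_of_notMem (by
    rw [Finset.mem_filter]
    rintro ⟨_, h⟩
    exact G.loopless.irrefl _ h)] at h2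
  exact h2

/-- a maximum family with an uncovered vertex covers at least three more vertices than every
family with fewer cycles -/
theorem noMerge_two [Fintype V] {G : SimpleGraph V} [DecidableRel G.Adj]
    (hC : ∀ I : Finset V, G.IsIndepSet (I : Set V) → ∀ v ∈ I, I.card + 1 ≤ dU G Finset.univ v)
    {F : List (List V)} (hM : IsMax G F.length F) {y : V} (hy : y ∈ unc F) :
    NoMerge G F 2 := by
  classical
  intro F' hF' hlen
  have hFn : F.flatten.length < Fintype.card V := by
    rw [← List.toFinset_card_of_nodup hM.fam.nod]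
    refine Finset.card_lt_univ_of_notMem (x := y) ?_
    rw [List.mem_toFinset]
    exact mem_unc.1 hy
  obtain ⟨F1, hM1⟩ := exists_isMax G (F.length - 1)
  have h1 : F'.flatten.length ≤ F1.flatten.length := hM1.max F' hF' (by omega)
  have h2 : F1.flatten.length ≤ F.flatten.length := hM.max F1 hM1.fam (hM1.len.trans (by omega))
  -- an uncovered vertex of `F1`
  obtain ⟨y1, hy1⟩ : ∃ y1, y1 ∈ unc F1 := by
    by_contra hcon
    push Not at hcon
    have h3 : ∀ x, x ∈ F1.flatten := by
      intro x
      by_contra hx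
      exact hcon x (mem_unc.2 hx)
    have h4 : F1.flatten.toFinset = Finset.univ := by
      ext x
      simp only [List.mem_toFinset, Finset.mem_univ, iff_true]
      exact h3 x
    have h5 := List.toFinset_card_of_nodup hM1.fam.nod
    rw [h4, Finset.card_univ] at h5
    omega
  have hM1' : IsMax G F1.length F1 := ⟨hM1.fam, le_rfl, fun L' h h' => hM1.max L' h (h'.trans hM1.len)⟩
  obtain ⟨v, hv, -, c, hc, hcU, hvc, hcN⟩ := clean_end hC hM1' hy1
  have h6 := hM.max (F1 ++ [c]) ⟨?_, ?_⟩ (by
    have := hM1.len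
    rw [List.length_append, List.length_singleton]
    omega)
  · rw [List.flatten_append, List.length_append, List.flatten_singleton] at h6
    have := hc.2.1
    omega
  · intro d hd
    rcases List.mem_append.1 hd with h | h
    · exact hM1.fam.cyc d h
    · rw [List.mem_singleton] at h
      rw [h]
      exact hc
  · rw [List.flatten_append, List.flatten_singleton, List.nodup_append]
    refine ⟨hM1.fam.nod, hc.1, ?_⟩
    rintro x hx z hz rfl
    exact mem_unc.1 (hcU _ hz) hx

/-- the main step: an independent set `J`, a cover of the uncovered part with `|J|` cycles and an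
uncovered cycle with at least `(|J| + 5) / 2` vertices -/
theorem step [Fintype V] {G : SimpleGraph V} [DecidableRel G.Adj]
    (hC : ∀ I : Finset V, G.IsIndepSet (I : Set V) → ∀ v ∈ I, I.card + 1 ≤ dU G Finset.univ v)
    {F : List (List V)} (hM : IsMax G F.length F) {y : V} (hy : y ∈ unc F) :
    ∃ (L : List (List V)) (c : List V), (∀ d ∈ L, CycL G d) ∧ L.flatten.Nodup ∧
      (∀ x, x ∈ L.flatten ↔ x ∈ unc F) ∧ CycL G c ∧ (∀ x ∈ c, x ∈ unc F) ∧
      L.length + 5 ≤ 2 * c.length ∧ (F = [] → L.length + 2 ≤ c.length) := by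
  classical
  obtain ⟨v, hv, hlink, c, hc, hcU, hvc, hcN⟩ := clean_end hC hM hy
  have hN := noMerge_two hC hM hy
  obtain ⟨J, L, hvJ, hJU, hJi, hLJ, hLc, hLn, hLm⟩ :=
    lobe (cloc_unc hC hM) (v := v) ⟨c, hc, hcU, hvc, hcN⟩
  obtain ⟨E, hE⟩ : ∃ E : Finset V, ∀ s, s ∈ E ↔
      s ∈ F.flatten ∧ G.Adj s v ∧ NJ G J (prv F s) ∧ NJ G J (prv F (prv F s)) :=
    ⟨Finset.univ.filter (fun s =>
      s ∈ F.flatten ∧ G.Adj s v ∧ NJ G J (prv F s) ∧ NJ G J (prv F (prv F s))),
      fun s => by simp⟩
  have h1 := count_n hC hM hN le_rfl hv hlink hJU hvJ hJi hE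
  have h2 := types_n hM hN le_rfl hv hlink hJU hvJ (fun s hs => (hE s).1 hs)
  have h3 := dU_lt_length hvc hcN
  refine ⟨L, c, hLc, hLn, hLm, hc, hcU, by omega, fun hF => ?_⟩
  have hE0 : E = ∅ := by
    rw [Finset.eq_empty_iff_forall_notMem]
    intro s hs
    have := ((hE s).1 hs).1
    rw [hF] at this
    simp at this
  rw [hE0, Finset.card_empty] at h1
  omega

/-- adding an uncovered cycle -/
theorem fam_add [Fintype V] {G : SimpleGraph V} {F : List (List V)} (hF : Fam G F) {c : List V}
    (hc : CycL G c) (hcU : ∀ x ∈ c, x ∈ unc F) : Fam G (F ++ [c]) := by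
  refine ⟨?_, ?_⟩
  · intro d hd
    rcases List.mem_append.1 hd with h | h
    · exact hF.cyc d h
    · rw [List.mem_singleton] at h
      rw [h]
      exact hc
  · rw [List.flatten_append, List.flatten_singleton, List.nodup_append]
    refine ⟨hF.nod, hc.1, ?_⟩
    rintro x hx z hz rfl
    exact mem_unc.1 (hcU _ hz) hx

theorem cov_app [Fintype V] {G : SimpleGraph V} {F L : List (List V)} (hF : Fam G F)
    (h1 : ∀ c ∈ L, CycL G c) (h2 : L.flatten.Nodup) (h3 : ∀ x, x ∈ L.flatten ↔ x ∈ unc F) :
    Cov G (F.length + L.length) := by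
  refine ⟨F ++ L, by rw [List.length_append], ?_, ?_, ?_⟩
  · intro c hc
    rcases List.mem_append.1 hc with h | h
    · exact hF.cyc c h
    · exact h1 c h
  · rw [List.flatten_append, List.nodup_append]
    refine ⟨hF.nod, h2, ?_⟩
    rintro x hx y hy rfl
    exact mem_unc.1 ((h3 x).1 hy) hx
  · intro x
    rw [List.flatten_append, List.mem_append]
    by_cases hx : x ∈ F.flatten
    · exact Or.inl hx
    · exact Or.inr ((h3 x).2 (mem_unc.2 hx))

theorem isMax_self {G : SimpleGraph V} {r : ℕ} {F : List (List V)} (hM : IsMax G r F) :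
    IsMax G F.length F :=
  ⟨hM.fam, le_rfl, fun L' h h' => hM.max L' h (h'.trans hM.len)⟩

/-- if `k` cycles do not cover the graph, then `r ≥ 1` cycles leave many vertices uncovered -/
theorem rest_ge [Fintype V] {G : SimpleGraph V} [DecidableRel G.Adj]
    (hC : ∀ I : Finset V, G.IsIndepSet (I : Set V) → ∀ v ∈ I, I.card + 1 ≤ dU G Finset.univ v)
    {k : ℕ} (hk : ¬ Cov G k) : ∀ (t r : ℕ), r + t = k + 1 → ∀ F : List (List V), IsMax G r F →
      4 * F.flatten.length + (t * t + 11 * t + 2 * (t / 2)) ≤ 4 * Fintype.card V := by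
  intro t
  induction t with
  | zero =>
    intro r hr F hM
    have h1 := hM.fam.nod.length_le_card
    omega
  | succ t ih =>
    intro r hr F hM
    have hne : (unc F).Nonempty := by
      rw [Finset.nonempty_iff_ne_empty]
      intro h
      exact hk (TFX.cov_of_unc hM.fam (hM.len.trans (by omega)) h)
    obtain ⟨y, hy⟩ := hne
    obtain ⟨L, c, h1, h2, h3, hc, hcU, h4, -⟩ := step hC (isMax_self hM) hy
    have h5 : k < F.length + L.length := by
      by_contra hcon
      push Not at hcon
      exact hk (Cov.mono (cov_app hM.fam h1 h2 h3) hcon)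
    have h6 := hM.len
    obtain ⟨F', hM'⟩ := exists_isMax G (r + 1)
    have h7 := ih (r + 1) (by omega) F' hM'
    have h8 := hM'.max (F ++ [c]) (fam_add hM.fam hc hcU) (by
      rw [List.length_append, List.length_singleton]
      omega)
    rw [List.flatten_append, List.length_append, List.flatten_singleton] at h8
    have h9 : (t + 1) * (t + 1) = t * t + 2 * t + 1 := by ring
    rw [h9]
    generalize t * t = q at *
    omega

/-- **Condition (C) alone.** -/
theorem cov_small [Fintype V] {G : SimpleGraph V} [DecidableRel G.Adj]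
    (hC : ∀ I : Finset V, G.IsIndepSet (I : Set V) → ∀ v ∈ I, I.card + 1 ≤ dU G Finset.univ v)
    {k : ℕ} (hk : ¬ Cov G k) : k * k + 16 * k + 11 ≤ 4 * Fintype.card V := by
  have hM0 : IsMax G ([] : List (List V)).length [] := by
    refine ⟨⟨by simp, by simp⟩, le_rfl, fun L' h h' => ?_⟩
    have : L' = [] := List.length_eq_zero_iff.1 (by simpa using h')
    rw [this]
  have hne : (unc ([] : List (List V))).Nonempty := by
    rw [Finset.nonempty_iff_ne_empty]
    intro h
    exact hk (TFX.cov_of_unc hM0.fam (by simp) h)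
  obtain ⟨y, hy⟩ := hne
  obtain ⟨L, c, h1, h2, h3, hc, hcU, -, h4⟩ := step hC hM0 hy
  have h4' := h4 rfl
  have h5 : k < ([] : List (List V)).length + L.length := by
    by_contra hcon
    push Not at hcon
    exact hk (Cov.mono (cov_app hM0.fam h1 h2 h3) hcon)
  obtain ⟨F, hM⟩ := exists_isMax G 1
  have h6 := hM.max ([] ++ [c]) (fam_add hM0.fam hc hcU) (by simp)
  rw [List.flatten_append, List.length_append, List.flatten_singleton] at h6
  have h7 := rest_ge hC hk k 1 (by omega) F hM
  simp only [List.flatten_nil, List.length_nil] at h5 h6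
  generalize k * k = q at *
  omega

end Pool.Agent.TFS
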