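import Pool.Agent.TFG.Hub
import Pool.Agent.TFG.Links3

/-! The doubly blocked hubs, for `2 ≤ Lo` (copy of TFG/TypesN, helper12 / helper81). -/

namespace Pool.Agent.TFS

open List Pool.Agent.TF82 Pool.Agent.TFC Pool.Agent.TFB Pool.Agent.TFN Pool.Agent.TFG

universe u

set_option linter.unusedSectionVars false
set_option linter.unusedVariables false

variable {V : Type u} [DecidableEq V]

/-- a covered vertex adjacent to an uncovered vertex `y` is attached to the component of `y` -/
theorem att_of_adj [Fintype V] {G : SimpleGraph V} {F : List (List V)} {w y : V}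
    (hw : w ∈ F.flatten) (h : G.Adj w y) : w ∈ att G F y :=
  mem_att.2 ⟨hw, y, Relation.ReflTransGen.refl, h⟩

/-- `s` and `t` are adjacent to `v`: neither `prv s` nor `prv (prv s)` is attached to the component -/
theorem prv_not_att [Fintype V] {G : SimpleGraph V} {F : List (List V)}
    (hM : IsMax G F.length F) {Lo : ℕ} (hN : NoMerge G F Lo) (hLo : 2 ≤ Lo) {v : V}
    (hv : v ∈ unc F)
    (hlink : ∀ s ∈ F.flatten, G.Adj s v → ∀ t ∈ att G F v, Link G F v 3 s t)
    {s : V} (hs : s ∈ F.flatten) (hsv : G.Adj s v) :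
    prv F s ∉ att G F v ∧ prv F (prv F s) ∉ att G F v := by
  refine ⟨att_noins hM hv (att_of_adj hs hsv), fun h => ?_⟩
  have h1 : Link G F v 3 ((prv F)^[1 + 1] s) s := (hlink s hs hsv _ h).symm
  have h2 := hub1 hM hN hs (by omega) h1
  omega

theorem types_n [Fintype V] {G : SimpleGraph V} [DecidableRel G.Adj] {F : List (List V)}
    (hM : IsMax G F.length F) {Lo : ℕ} (hN : NoMerge G F Lo) (hLo : 2 ≤ Lo) {v : V}
    (hv : v ∈ unc F)
    (hlink : ∀ s ∈ F.flatten, G.Adj s v → ∀ t ∈ att G F v, Link G F v 3 s t)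
    {J : Finset V} (hJ : J ⊆ unc F) (hvJ : v ∈ J) {E : Finset V}
    (hE : ∀ s ∈ E, s ∈ F.flatten ∧ G.Adj s v ∧ NJ G J (prv F s) ∧ NJ G J (prv F (prv F s))) :
    2 * E.card + 1 ≤ J.card := by
  classical
  have hEE : ∀ p ∈ E ×ˢ (Finset.univ : Finset (Fin 2)),
      ∃ y ∈ J, G.Adj ((prv F)^[(p.2 : ℕ) + 1] p.1) y := by
    rintro ⟨s, a⟩ hp
    obtain ⟨h1, h2, h3, h4⟩ := hE s (Finset.mem_product.1 hp).1
    fin_cases a
    · exact h3
    · exact h4
  have hne : Nonempty V := ⟨v⟩
  choose! f hfJ hfA using hEE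
  have hmem : ∀ (s : V) (a : ℕ), s ∈ F.flatten → (prv F)^[a] s ∈ F.flatten := by
    intro s a hs
    induction a with
    | zero => exact hs
    | succ n ih =>
      rw [Function.iterate_succ_apply']
      exact prv_mem hM.fam ih
  have hnot : ∀ s ∈ E, ∀ a : Fin 2, (prv F)^[(a : ℕ) + 1] s ∉ att G F v := by
    intro s hs a
    have h := prv_not_att hM hN hLo hv hlink (hE s hs).1 (hE s hs).2.1
    fin_cases a
    · exact h.1
    · exact h.2
  have hncomp : ∀ p ∈ E ×ˢ (Finset.univ : Finset (Fin 2)), f p ∉ comp G F v := by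
    intro p hp hc
    have hp1 := (Finset.mem_product.1 hp).1
    refine hnot p.1 hp1 p.2 (mem_att.2 ⟨hmem _ _ (hE _ hp1).1, f p, (mem_comp.1 hc).2, hfA p hp⟩)
  have hvv : v ∈ comp G F v := mem_comp.2 ⟨hv, Relation.ReflTransGen.refl⟩
  have hmaps : ∀ p ∈ E ×ˢ (Finset.univ : Finset (Fin 2)), f p ∈ J.erase v := by
    intro p hp
    refine Finset.mem_erase.2 ⟨fun h => hncomp p hp (by rw [h]; exact hvv), hfJ p hp⟩
  have hinj : Set.InjOn f ↑(E ×ˢ (Finset.univ : Finset (Fin 2))) := by
    rintro ⟨s, a⟩ hp ⟨t, b⟩ hq hst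
    have hp' := Finset.mem_coe.1 hp
    have hq' := Finset.mem_coe.1 hq
    have hsE := (Finset.mem_product.1 hp').1
    have htE := (Finset.mem_product.1 hq').1
    have hs1 := hE s hsE
    have ht1 := hE t htE
    have hA1 := hfA _ hp'
    have hA2 := hfA _ hq'
    have hyJ := hfJ _ hp'
    have hyn := hncomp _ hp'
    rw [← hst] at hA2
    set y := f (s, a) with hy
    have hyu : y ∈ unc F := hJ hyJ
    have hy1 : (prv F)^[(a : ℕ) + 1] s ∈ att G F y := att_of_adj (hmem _ _ hs1.1) hA1
    have hy2 : (prv F)^[(b : ℕ) + 1] t ∈ att G F y := att_of_adj (hmem _ _ ht1.1) hA2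
    by_cases he : s = t
    · subst he
      by_cases hab : a = b
      · rw [hab]
      · exfalso
        have hn : ∀ w ∈ att G F y, prv F w ∉ att G F y := fun w hw => att_noins hM hyu hw
        fin_cases a <;> fin_cases b
        · exact hab rfl
        · exact hn _ hy1 hy2
        · exact hn _ hy2 hy1
        · exact hab rfl
    · exfalso
      have hl : Link G F v 3 s t := hlink s hs1.1 hs1.2.1 t (att_of_adj ht1.1 ht1.2.1)
      have hl' : Link G F y 1 ((prv F)^[(a : ℕ) + 1] s) ((prv F)^[(b : ℕ) + 1] t) :=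
        link_one hyu hy1 hy2
      have ha := a.isLt
      have hb := b.isLt
      have h1 : ∀ i, 1 ≤ i → i ≤ (a : ℕ) → (prv F)^[i] s ≠ t := by
        intro i h1 h2 h3
        have hi : i = 1 := by omega
        subst hi
        exact hnot s hsE 0 (by
          have : (prv F)^[1] s ∈ att G F v := by rw [h3]; exact att_of_adj ht1.1 ht1.2.1
          exact this)
      have h2 : ∀ i, 1 ≤ i → i ≤ (b : ℕ) → (prv F)^[i] t ≠ s := by
        intro i h1 h2 h3
        have hi : i = 1 := by omega
        subst hi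
        exact hnot t htE 0 (by
          have : (prv F)^[1] t ∈ att G F v := by rw [h3]; exact att_of_adj hs1.1 hs1.2.1
          exact this)
      have h3 := hub3 hM hN hs1.1 ht1.1 he hv hyu hyn (by omega) (by omega) h1 h2 hl hl'
      omega
  have h := Finset.card_le_card_of_injOn f hmaps hinj
  rw [Finset.card_product, Finset.card_fin, Finset.card_erase_of_mem hvJ] at h
  have : 0 < J.card := Finset.card_pos.2 ⟨v, hvJ⟩
  omega

end Pool.Agent.TFS
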